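import Pool.Agent.Lib.MP_c5d73d_lc.T.H39.Pseudo

/-!
# Boolean valued domination from pseudo-intersections
-/

universe u

open Cardinal Set

namespace Pool.Agent.Lib.MP_c5d73d_lc.T.H39

variable {B : Type u} [CompleteBooleanAlgebra B]

/-- Finite intersections of increasing sequences with supremum top have supremum top. -/
lemma iSup_inf_eq_top {α : Type*} (s : Finset α) (f : α → ℕ → B) (hf : ∀ a ∈ s, Monotone (f a))
    (h : ∀ a ∈ s, ⨆ n, f a n = ⊤) : ⨆ n, s.inf (fun a => f a n) = ⊤ := by
  classical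
  induction s using Finset.induction_on with
  | empty => simp
  | insert a s ha ih =>
    have h1 : ∀ n, (insert a s).inf (fun a => f a n) = f a n ⊓ s.inf (fun a => f a n) :=
      fun n => Finset.inf_insert
    simp only [h1]
    have hmono : Monotone fun n => s.inf (fun a => f a n) := by
      intro m n hmn
      exact Finset.le_inf fun b hb => (Finset.inf_le hb).trans
        (hf b (Finset.mem_insert_of_mem hb) hmn)
    rw [iSup_inf_of_monotone (hf a (Finset.mem_insert_self _ _)) hmono,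
      h a (Finset.mem_insert_self _ _), ih (fun b hb => hf b (Finset.mem_insert_of_mem hb))
        (fun b hb => h b (Finset.mem_insert_of_mem hb)), inf_top_eq]

lemma iSup_disjointed_eq (W : ℕ → B) (n : ℕ) :
    W n ≤ ⨆ x, W x ⊓ ⨅ y, ⨅ (_ : y < x), (W y)ᶜ := by
  induction n using Nat.strong_induction_on with
  | _ n ih =>
    have h1 : W n = (W n ⊓ ⨅ y, ⨅ (_ : y < n), (W y)ᶜ) ⊔
        (W n ⊓ (⨅ y, ⨅ (_ : y < n), (W y)ᶜ)ᶜ) := by
      rw [← inf_sup_left, sup_compl_eq_top, inf_top_eq]
    rw [h1]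
    refine sup_le (le_iSup (fun x => W x ⊓ ⨅ y, ⨅ (_ : y < x), (W y)ᶜ) n) ?_
    refine inf_le_right.trans ?_
    rw [compl_iInf]
    refine iSup_le fun y => ?_
    rw [compl_iInf]
    refine iSup_le fun hy => ?_
    rw [compl_compl]
    exact ih y hy

theorem dom (hps : PseudoStatement.{u}) : DomStatement.{u} := by
  classical
  intro κ hκ B _ hB hMA ι hι F hF
  have hI : #(ι ⊕ ULift.{u} ℕ) < κ := by
    rw [mk_sum, lift_id, lift_id]
    refine add_lt_of_lt hκ.le hι ?_
    exact (mk_le_aleph0 (α := ULift.{u} ℕ)).trans_lt hκ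
  -- the bound for all the sets up to the first coordinate
  let bd : ι → ℕ → ℕ → B := fun i k M => ⨅ j, ⨅ (_ : j ≤ k), ⨅ m, ⨅ (_ : M ≤ m), (F i j m)ᶜ
  have hbd_mono : ∀ i k, Monotone (bd i k) := by
    intro i k M M' h
    refine le_iInf fun j => le_iInf fun hj => le_iInf fun m => le_iInf fun hm => ?_
    exact (iInf₂_le (f := fun j (_ : j ≤ k) => ⨅ m, ⨅ (_ : M ≤ m), (F i j m)ᶜ) j hj).trans
      (iInf₂_le (f := fun m (_ : M ≤ m) => (F i j m)ᶜ) m (h.trans hm))
  have hbd_top : ∀ i k, ⨆ M, bd i k M = ⊤ := by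
    intro i k
    have h1 := iSup_inf_eq_top (Finset.range (k + 1))
      (fun j M => ⨅ m, ⨅ (_ : M ≤ m), (F i j m)ᶜ)
      (fun j _ M M' h => le_iInf fun m => le_iInf fun hm =>
        iInf₂_le (f := fun m (_ : M ≤ m) => (F i j m)ᶜ) m (h.trans hm))
      (fun j _ => hF i j)
    rw [eq_top_iff, ← h1]
    refine iSup_mono fun M => ?_
    refine le_iInf fun j => le_iInf fun hj => ?_
    exact Finset.inf_le (f := fun j => ⨅ m, ⨅ (_ : M ≤ m), (F i j m)ᶜ)
      (Finset.mem_range.2 (by omega))
  let A : (ι ⊕ ULift.{u} ℕ) → ℕ → B := fun j x => match j with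
    | Sum.inl i => bd i (Nat.unpair x).1 (Nat.unpair x).2
    | Sum.inr k => if k.down ≤ (Nat.unpair x).1 then ⊤ else ⊥
  obtain ⟨Z, hZ1, hZ2⟩ := hps κ hκ B hB hMA (ι ⊕ ULift.{u} ℕ) hI A (by
    intro s
    rw [fin_eq_bot_iff]
    intro n
    -- a bound for the numbers in s
    obtain ⟨K, hnK, hK⟩ : ∃ K : ℕ, n ≤ K ∧ ∀ k : ULift.{u} ℕ, Sum.inr k ∈ s → k.down ≤ K := by
      refine ⟨n + s.sup (fun j => match j with
        | Sum.inl _ => 0
        | Sum.inr k => k.down), Nat.le_add_right _ _, fun k hk => ?_⟩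
      have := Finset.le_sup (f := fun j : ι ⊕ ULift.{u} ℕ => match j with
        | Sum.inl _ => 0
        | Sum.inr k => k.down) hk
      simp only at this
      omega
    have h1 := iSup_inf_eq_top s (fun j M => A j (Nat.pair K M))
      (by
        rintro (i | k) hj M M' h
        · have h2 : ∀ M, A (Sum.inl i) (Nat.pair K M) = bd i K M := fun M => by
            change bd i (Nat.unpair (Nat.pair K M)).1 (Nat.unpair (Nat.pair K M)).2 = _
            rw [Nat.unpair_pair]
          simp only [h2]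
          exact hbd_mono i K h
        · have h2 : ∀ M, A (Sum.inr k) (Nat.pair K M) = ⊤ := fun M => by
            change (if k.down ≤ (Nat.unpair (Nat.pair K M)).1 then (⊤ : B) else ⊥) = _
            rw [Nat.unpair_pair, if_pos (hK k hj)]
          simp only [h2]
          exact le_rfl)
      (by
        rintro (i | k) hj
        · have h2 : ∀ M, A (Sum.inl i) (Nat.pair K M) = bd i K M := fun M => by
            change bd i (Nat.unpair (Nat.pair K M)).1 (Nat.unpair (Nat.pair K M)).2 = _
            rw [Nat.unpair_pair]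
          simp only [h2]
          exact hbd_top i K
        · have h2 : ∀ M, A (Sum.inr k) (Nat.pair K M) = ⊤ := fun M => by
            change (if k.down ≤ (Nat.unpair (Nat.pair K M)).1 then (⊤ : B) else ⊥) = _
            rw [Nat.unpair_pair, if_pos (hK k hj)]
          simp only [h2]
          exact iSup_const)
    rw [eq_top_iff, ← h1]
    refine iSup_le fun M => ?_
    have h3 : n ≤ Nat.pair K M := hnK.trans (Nat.left_le_pair K M)
    refine le_trans ?_ (le_iSup₂ (f := fun m (_ : n ≤ m) => (s.inf A) m) (Nat.pair K M) h3)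
    rw [Finset.inf_apply])
  -- the part of `Z` above `k`
  let W : ℕ → ℕ → B := fun k x => if k ≤ (Nat.unpair x).1 then Z x else ⊥
  have hW : ∀ k, ⨆ x, W k x = ⊤ := by
    intro k
    rw [← compl_eq_bot]
    have h1 := hZ2 (Sum.inr ⟨k⟩)
    rw [← le_bot_iff, ← hZ1]
    calc (⨆ x, W k x)ᶜ = (⨆ x, W k x)ᶜ ⊓ fin (Z \ A (Sum.inr ⟨k⟩)) := by rw [h1, inf_top_eq]
      _ ≤ fin Z := by
        unfold fin
        rw [inf_iSup_eq]
        refine iSup_mono fun n => le_iInf fun m => le_iInf fun hm => ?_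
        have h2 : (⨆ x, W k x)ᶜ ≤ (W k m)ᶜ := compl_le_compl (le_iSup _ m)
        have h3 : (⨅ m, ⨅ (_ : n ≤ m), ((Z \ A (Sum.inr ⟨k⟩)) m)ᶜ) ≤
            ((Z \ A (Sum.inr ⟨k⟩)) m)ᶜ :=
          iInf₂_le (f := fun m (_ : n ≤ m) => ((Z \ A (Sum.inr ⟨k⟩)) m)ᶜ) m hm
        refine (inf_le_inf h2 h3).trans ?_
        rw [← compl_sup]
        refine compl_le_compl ?_
        by_cases h4 : k ≤ (Nat.unpair m).1
        · have : W k m = Z m := if_pos h4
          rw [this]
          exact le_sup_left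
        · have h5 : A (Sum.inr ⟨k⟩) m = ⊥ := if_neg h4
          have h6 : (Z \ A (Sum.inr ⟨k⟩)) m = Z m := by
            rw [Pi.sdiff_apply, h5, sdiff_bot]
          rw [h6]
          exact le_sup_right
  let V : ℕ → ℕ → B := fun k x => W k x ⊓ ⨅ y, ⨅ (_ : y < x), (W k y)ᶜ
  have hV : ∀ k, ⨆ x, V k x = ⊤ := by
    intro k
    rw [eq_top_iff, ← hW k]
    exact iSup_le fun x => iSup_disjointed_eq (W k) x
  have hVlt : ∀ k x y, x < y → V k x ⊓ V k y = ⊥ := by
    intro k x y hxy
    rw [← le_bot_iff, ← inf_compl_self (W k x)]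
    refine inf_le_inf inf_le_left (inf_le_right.trans ?_)
    exact iInf₂_le (f := fun z (_ : z < y) => (W k z)ᶜ) x hxy
  have hVdisj : ∀ k x y, x ≠ y → V k x ⊓ V k y = ⊥ := by
    intro k x y hxy
    rcases lt_or_gt_of_ne hxy with h | h
    · exact hVlt k x y h
    · rw [inf_comm]
      exact hVlt k y x h
  refine ⟨fun k m => ⨆ x, ⨆ (_ : m < (Nat.unpair x).2), V k x, fun k => ?_, fun i => ?_⟩
  · rw [eq_top_iff, ← hV k]
    refine iSup_le fun x => ?_
    unfold fin
    refine le_trans ?_ (le_iSup _ (Nat.unpair x).2)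
    refine le_iInf fun m => le_iInf fun hm => ?_
    rw [le_compl_iff_disjoint_right, disjoint_iff, inf_iSup_eq, iSup_eq_bot]
    intro y
    rw [inf_iSup_eq, iSup_eq_bot]
    intro hy
    refine hVdisj k x y fun h => ?_
    rw [← h] at hy
    omega
  · have h1 := hZ2 (Sum.inl i)
    rw [eq_top_iff, ← h1]
    unfold fin
    refine iSup_mono fun N => le_iInf fun k => le_iInf fun hk => le_iInf fun m => ?_
    rw [le_himp_iff]
    set p := ⨅ m, ⨅ (_ : N ≤ m), ((Z \ A (Sum.inl i)) m)ᶜ with hp
    calc p ⊓ F i k m = p ⊓ F i k m ⊓ ⨆ x, V k x := by rw [hV k, inf_top_eq]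
      _ ≤ ⨆ x, ⨆ (_ : m < (Nat.unpair x).2), V k x := by
        rw [inf_iSup_eq]
        refine iSup_mono fun x => ?_
        by_cases hx : m < (Nat.unpair x).2
        · refine inf_le_right.trans ?_
          exact le_iSup (fun _ : m < (Nat.unpair x).2 => V k x) hx
        · refine le_trans ?_ bot_le
          by_cases hkx : k ≤ (Nat.unpair x).1
          swap
          · have h2 : V k x = ⊥ := by
              have : W k x = ⊥ := if_neg hkx
              change W k x ⊓ _ = ⊥
              rw [this, bot_inf_eq]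
            rw [h2, inf_bot_eq]
          have hNx : N ≤ x := hk.trans (hkx.trans (Nat.unpair_left_le x))
          have h3 : p ≤ ((Z \ A (Sum.inl i)) x)ᶜ :=
            iInf₂_le (f := fun m (_ : N ≤ m) => ((Z \ A (Sum.inl i)) m)ᶜ) x hNx
          have h4 : V k x ≤ Z x := by
            have : W k x = Z x := if_pos hkx
            change W k x ⊓ _ ≤ _
            rw [this]
            exact inf_le_left
          have h5 : p ⊓ V k x ≤ A (Sum.inl i) x := by
            refine (inf_le_inf h3 h4).trans ?_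
            rw [Pi.sdiff_apply, _root_.sdiff_eq, compl_inf, compl_compl, inf_sup_right,
              compl_inf_self, bot_sup_eq]
            exact inf_le_left
          have h6 : A (Sum.inl i) x ≤ (F i k m)ᶜ := by
            change bd i (Nat.unpair x).1 (Nat.unpair x).2 ≤ _
            refine (iInf₂_le (f := fun j (_ : j ≤ (Nat.unpair x).1) =>
              ⨅ m, ⨅ (_ : (Nat.unpair x).2 ≤ m), (F i j m)ᶜ) k hkx).trans ?_
            exact iInf₂_le (f := fun m (_ : (Nat.unpair x).2 ≤ m) => (F i k m)ᶜ) m (by omega)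
          calc p ⊓ F i k m ⊓ V k x = (p ⊓ V k x) ⊓ F i k m := by
                rw [inf_assoc, inf_comm (F i k m), ← inf_assoc]
            _ ≤ (F i k m)ᶜ ⊓ F i k m := inf_le_inf_right _ (h5.trans h6)
            _ ≤ ⊥ := by rw [compl_inf_self]

end Pool.Agent.Lib.MP_c5d73d_lc.T.H39
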