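import Pool.Agent.Lib.MP_c5d73d_lc.T.Defs

/-!
# Boolean valued pseudo-intersections from the typed Martin axiom
-/

universe u

open Cardinal Set

namespace Pool.Agent.Lib.MP_c5d73d_lc.T.H39

variable {B : Type u} [CompleteBooleanAlgebra B]

/-- A real is infinite iff all its tails have supremum top. -/
lemma fin_eq_bot_iff (a : ℕ → B) : fin a = ⊥ ↔ ∀ n : ℕ, ⨆ m, ⨆ (_ : n ≤ m), a m = ⊤ := by
  unfold fin
  rw [iSup_eq_bot]
  refine forall_congr' fun n => ?_
  rw [← compl_eq_top, compl_iInf]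
  have : (⨆ i, (⨅ (_ : n ≤ i), (a i)ᶜ)ᶜ) = ⨆ m, ⨆ (_ : n ≤ m), a m := by
    refine iSup_congr fun m => ?_
    rw [compl_iInf]
    refine iSup_congr fun _ => compl_compl _
  rw [this]

/-- The conditions. -/
abbrev Cond (ι : Type u) : Type u := ULift.{u} (Finset ℕ) × Finset ι

open Classical in
/-- The Boolean value of the order between conditions. -/
noncomputable def cle {ι : Type u} (A : ι → ℕ → B) (p q : Cond ι) : B :=
  if q.1.down ⊆ p.1.down ∧ q.2 ⊆ p.2 then
    (p.1.down \ q.1.down).inf (fun x => q.2.inf (fun i => A i x)) else ⊥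

lemma cle_le {ι : Type u} {A : ι → ℕ → B} {p q : Cond ι} {x : ℕ} {i : ι}
    (hx : x ∈ p.1.down) (hx' : x ∉ q.1.down) (hi : i ∈ q.2) : cle A p q ≤ A i x := by
  unfold cle
  split_ifs with h
  · refine (Finset.inf_le (Finset.mem_sdiff.2 ⟨hx, hx'⟩)).trans ?_
    exact Finset.inf_le (f := fun i => A i x) hi
  · exact bot_le

lemma cle_eq_bot {ι : Type u} {A : ι → ℕ → B} {p q : Cond ι} {x : ℕ}
    (hx : x ∉ p.1.down) (hx' : x ∈ q.1.down) : cle A p q = ⊥ := by
  unfold cle
  rw [if_neg]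
  exact fun h => hx (h.1 hx')

lemma cle_eq_top {ι : Type u} {A : ι → ℕ → B} {p q : Cond ι}
    (h1 : p.1.down = q.1.down) (h2 : q.2 ⊆ p.2) : cle A p q = ⊤ := by
  unfold cle
  rw [if_pos ⟨by rw [h1], h2⟩, h1, Finset.sdiff_self]
  exact Finset.inf_empty

lemma bpre_cle {ι : Type u} (A : ι → ℕ → B) : BPre (cle A) where
  refl p := cle_eq_top rfl (Finset.Subset.refl _)
  trans p q r := by
    by_cases h1 : q.1.down ⊆ p.1.down ∧ q.2 ⊆ p.2
    swap
    · have : cle A p q = ⊥ := if_neg h1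
      rw [this, bot_inf_eq]
      exact bot_le
    by_cases h2 : r.1.down ⊆ q.1.down ∧ r.2 ⊆ q.2
    swap
    · have : cle A q r = ⊥ := if_neg h2
      rw [this, inf_bot_eq]
      exact bot_le
    have h3 : cle A p r = (p.1.down \ r.1.down).inf (fun x => r.2.inf (fun i => A i x)) :=
      if_pos ⟨h2.1.trans h1.1, h2.2.trans h1.2⟩
    rw [h3]
    refine Finset.le_inf fun x hx => Finset.le_inf fun i hi => ?_
    obtain ⟨hxp, hxr⟩ := Finset.mem_sdiff.1 hx
    by_cases hxq : x ∈ q.1.down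
    · exact inf_le_right.trans (cle_le hxq hxr hi)
    · exact inf_le_left.trans (cle_le hxp hxq (h2.2 hi))

lemma bccc_cle (hB : CCC B) {ι : Type u} (A : ι → ℕ → B) : BCCC (cle A) := by
  classical
  intro 𝒜 h0 hp
  have key : ∀ s : Finset ℕ, {a ∈ 𝒜 | a.2.1.down = s}.Countable := by
    intro s
    have hdisj : ∀ a ∈ 𝒜, ∀ b ∈ 𝒜, a.2.1.down = s → b.2.1.down = s → a ≠ b → a.1 ⊓ b.1 = ⊥ := by
      intro a ha b hb has hbs hab
      have h1 := hp ha hb hab (⟨s⟩, a.2.2 ∪ b.2.2)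
      rw [cle_eq_top (by exact has.symm) Finset.subset_union_left, inf_top_eq,
        cle_eq_top (by exact hbs.symm) Finset.subset_union_right, inf_top_eq] at h1
      exact h1
    have hinj : Set.InjOn Prod.fst {a ∈ 𝒜 | a.2.1.down = s} := by
      intro a ha b hb hab
      by_contra hne
      have h1 := hdisj a ha.1 b hb.1 ha.2 hb.2 hne
      rw [← hab, inf_idem] at h1
      exact h0 a ha.1 h1
    refine Set.countable_of_injective_of_countable_image hinj ?_
    refine hB _ ?_ ?_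
    · rintro _ ⟨a, ha, rfl⟩
      exact h0 a ha.1
    · rintro _ ⟨a, ha, rfl⟩ _ ⟨b, hb, rfl⟩ hne
      exact hdisj a ha.1 b hb.1 ha.2 hb.2 fun h => hne (by rw [h])
  have hsub : 𝒜 ⊆ ⋃ s : Finset ℕ, {a ∈ 𝒜 | a.2.1.down = s} := fun a ha =>
    mem_iUnion.2 ⟨a.2.1.down, ha, rfl⟩
  exact (countable_iUnion key).mono hsub

lemma mk_finset_lt {κ : Cardinal.{u}} (hκ : ℵ₀ < κ) {ι : Type u} (hι : #ι < κ) :
    #(Finset ι) < κ := by
  rcases finite_or_infinite ι with h | h
  · have : Finite (Finset ι) := inferInstance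
    exact (lt_aleph0_of_finite _).trans hκ
  · rw [mk_finset_of_infinite]
    exact hι

theorem pseudo : PseudoStatement.{u} := by
  classical
  intro κ hκ B _ hB hMA ι hι A hA
  have hN : #(Cond ι) < κ := by
    rw [mk_prod, lift_id, lift_id]
    refine mul_lt_of_lt hκ.le ?_ (mk_finset_lt hκ hι)
    have : Countable (ULift.{u} (Finset ℕ)) := inferInstance
    exact (mk_le_aleph0 (α := ULift.{u} (Finset ℕ))).trans_lt hκ
  have hI : #(ι ⊕ ULift.{u} ℕ) < κ := by
    rw [mk_sum, lift_id, lift_id]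
    refine add_lt_of_lt hκ.le hι ?_
    exact (mk_le_aleph0 (α := ULift.{u} ℕ)).trans_lt hκ
  let D : (ι ⊕ ULift.{u} ℕ) → Cond ι → B := fun j p => match j with
    | Sum.inl i => if i ∈ p.2 then ⊤ else ⊥
    | Sum.inr n => if ∃ x ∈ p.1.down, n.down ≤ x then ⊤ else ⊥
  have hD : ∀ i x, ⨆ y, D i y ⊓ cle A y x = ⊤ := by
    rintro (i | n) ⟨⟨s⟩, F⟩
    · rw [eq_top_iff]
      refine le_trans ?_ (le_iSup _ ((⟨s⟩, insert i F) : Cond ι))
      have h1 : D (Sum.inl i) (⟨s⟩, insert i F) = ⊤ := if_pos (Finset.mem_insert_self _ _)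
      have h2 : cle A ((⟨s⟩, insert i F) : Cond ι) ((⟨s⟩, F) : Cond ι) = ⊤ :=
        cle_eq_top rfl (Finset.subset_insert _ _)
      rw [h1, h2, inf_top_eq]
    · rw [eq_top_iff]
      have h1 := (fin_eq_bot_iff _).1 (hA F) n.down
      rw [← h1]
      refine iSup_le fun m => iSup_le fun hm => ?_
      refine le_trans ?_ (le_iSup _ ((⟨insert m s⟩, F) : Cond ι))
      have h2 : D (Sum.inr n) (⟨insert m s⟩, F) = ⊤ :=
        if_pos ⟨m, Finset.mem_insert_self _ _, hm⟩
      rw [h2, top_inf_eq]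
      unfold cle
      rw [if_pos ⟨Finset.subset_insert _ _, Finset.Subset.refl _⟩]
      refine Finset.le_inf fun x hx => Finset.le_inf fun i hi => ?_
      obtain ⟨hx1, hx2⟩ := Finset.mem_sdiff.1 hx
      have hxm : x = m := by
        rcases Finset.mem_insert.1 hx1 with h | h
        · exact h
        · exact absurd h hx2
      rw [hxm, Finset.inf_apply]
      exact Finset.inf_le (f := fun i => A i m) hi
  obtain ⟨G, hG1, hG2, hG3⟩ := hMA (Cond ι) (ι ⊕ ULift.{u} ℕ) hN hI ⟨(⟨∅⟩, ∅)⟩ (cle A)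
    (bpre_cle A) (bccc_cle hB A) D hD
  let Z : ℕ → B := fun x => ⨆ p : Cond ι, ⨆ (_ : x ∈ p.1.down), G p
  refine ⟨Z, ?_, fun i => ?_⟩
  · rw [fin_eq_bot_iff]
    intro n
    rw [eq_top_iff, ← hG3 (Sum.inr ⟨n⟩)]
    refine iSup_le fun p => ?_
    by_cases hp : ∃ x ∈ p.1.down, n ≤ x
    · obtain ⟨x, hx, hnx⟩ := hp
      refine inf_le_left.trans ?_
      refine le_trans ?_ (le_iSup₂ (f := fun m (_ : n ≤ m) => Z m) x hnx)
      exact le_iSup₂ (f := fun (p : Cond ι) (_ : x ∈ p.1.down) => G p) p hx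
    · have : D (Sum.inr ⟨n⟩) p = ⊥ := if_neg hp
      rw [this, inf_bot_eq]
      exact bot_le
  · rw [eq_top_iff, ← hG3 (Sum.inl i)]
    refine iSup_le fun p => ?_
    by_cases hp : i ∈ p.2
    swap
    · have : D (Sum.inl i) p = ⊥ := if_neg hp
      rw [this, inf_bot_eq]
      exact bot_le
    refine inf_le_left.trans ?_
    unfold fin
    refine le_trans ?_ (le_iSup _ (p.1.down.sup id + 1))
    refine le_iInf fun m => le_iInf fun hm => ?_
    rw [le_compl_iff_disjoint_right, Pi.sdiff_apply]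
    rw [disjoint_iff]
    have hmp : m ∉ p.1.down := fun h => by
      have := Finset.le_sup (f := id) h
      simp only [id] at this
      omega
    have key : G p ⊓ Z m ≤ A i m := by
      change G p ⊓ (⨆ q : Cond ι, ⨆ (_ : m ∈ q.1.down), G q) ≤ A i m
      rw [inf_iSup_eq]
      refine iSup_le fun q => ?_
      rw [inf_iSup_eq]
      refine iSup_le fun hq => ?_
      refine (hG2 p q).trans (iSup_le fun z => ?_)
      by_cases hz : m ∈ z.1.down
      · exact (inf_le_left.trans inf_le_right).trans (cle_le hz hmp hp)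
      · rw [cle_eq_bot (A := A) hz hq, inf_bot_eq]
        exact bot_le
    rw [_root_.sdiff_eq, ← inf_assoc]
    exact le_bot_iff.1 ((inf_le_inf_right _ key).trans (by rw [inf_compl_self]))

end Pool.Agent.Lib.MP_c5d73d_lc.T.H39
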